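import Mathlib
import Pool.Agent.W618.IFS.Path
import Pool.Agent.W618.IFS.Reparam

/-!
# Level functions on Peano continua: definitions and statements of the parts
-/

open Set Topology Filter

namespace Pool.Agent.W618.PC

section

variable {X : Type} [MetricSpace X]

/-- There is a path from `x` to `y` inside `A` along which `l` does not increase. -/
def Desc (l : X → ℝ) (A : Set X) (x y : X) : Prop :=
  ∃ σ : ℝ → X, Continuous σ ∧ σ 0 = x ∧ σ 1 = y ∧ (∀ s ∈ Icc (0 : ℝ) 1, σ s ∈ A) ∧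
    ∀ s t : ℝ, 0 ≤ s → s ≤ t → t ≤ 1 → l (σ t) ≤ l (σ s)

/-- Closed sets in which every point is joined, by small paths, to one of finitely many points. -/
def Fine (F : Set X) : Prop :=
  IsClosed F ∧ ∀ δ > 0, ∃ T : Finset X, (∀ p ∈ T, p ∈ F) ∧
    ∀ x ∈ F, ∃ p ∈ T, JoinedIn (F ∩ Metric.closedBall x δ) x p

variable (X) in
/-- Existence of arbitrarily small fine closed neighbourhoods. -/
def Pol : Prop :=
  Fine (univ : Set X) ∧ ∀ K O : Set X, IsClosed K → IsOpen O → K ⊆ O → ∀ δ > 0,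
    ∃ F : Set X, Fine F ∧ K ⊆ interior F ∧ F ⊆ O ∧
      ∀ x ∈ F, ∃ z ∈ K, JoinedIn (F ∩ Metric.closedBall x δ) x z

/-- Levels: closed sets `F 0 ⊆ F 1 ⊆ ... ⊆ F M = X`, each in the interior of the next. -/
structure Lev (M : ℕ) (F : ℕ → Set X) : Prop where
  fine : ∀ i ≤ M, Fine (F i)
  step : ∀ i < M, F i ⊆ interior (F (i + 1))
  top : F M = univ

/-- A network: closed set `H` with a height `l` compatible with the levels, such that the points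
of `H` are joined to finitely many points by small paths in `H` along which `l` is monotone. -/
structure Nw (M : ℕ) (F : ℕ → Set X) (H : Set X) (l : X → ℝ) : Prop where
  closed : IsClosed H
  cont : ContinuousOn l H
  nonneg : ∀ x ∈ H, 0 ≤ l x
  lo : ∀ x ∈ H, ∀ i ≤ M, l x < (i : ℝ) → x ∈ interior (F i)
  hi : ∀ x ∈ H, ∀ i ≤ M, (i : ℝ) < l x → x ∉ F i
  net : ∀ δ > 0, ∃ P : Finset X, ∀ x ∈ H, ∃ p ∈ P,
    Desc l (H ∩ Metric.closedBall x δ) x p ∨ Desc l (H ∩ Metric.closedBall x δ) p x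

/-- Every point of `F i` is joined in `F i`, by a small path, to the network or to `F 0`. -/
def Acc (M : ℕ) (F : ℕ → Set X) (H : Set X) (ε : ℝ) : Prop :=
  ∀ i ≤ M, ∀ x ∈ F i, ∃ z ∈ H ∪ F 0, JoinedIn (F i ∩ Metric.closedBall x ε) x z

/-- The state while arcs are added in the shell between `F j` and `F (j + 1)`. -/
structure Sh (M : ℕ) (F : ℕ → Set X) (j : ℕ) (Hb H B D : Set X) (l : X → ℝ) (S : Set X)
    (ε κ : ℝ) : Prop where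
  κ0 : 0 ≤ κ
  nw : Nw M F (H ∪ B ∪ D) l
  Hbc : IsClosed Hb
  HbH : Hb ⊆ H
  Hc : IsClosed H
  Bc : IsClosed B
  Dc : IsClosed D
  BF : B ⊆ F (j + 1)
  BFj : ∀ x ∈ B, x ∉ F j
  BHb : ∀ x ∈ B, x ∉ Hb
  Bl : ∀ x ∈ B, l x = j + 1
  DF : D ⊆ F (j + 1)
  Dint : ∀ x ∈ D, x ∉ interior (F j)
  Dfin : (D ∩ F j).Finite
  HF : ∀ x ∈ H, x ∈ F (j + 1) → x ∈ Hb ∨ x ∈ B
  Bd : ∀ x ∈ B, x ∈ S ∨ ∃ z ∈ Hb ∪ F j,
    Desc l ((H ∪ B ∪ D) ∩ Metric.closedBall x (2 * ε + κ)) x z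
  Dd : ∀ x ∈ D, ∃ z ∈ Hb ∪ F j, Desc l ((H ∪ B ∪ D) ∩ Metric.closedBall x κ) x z

/-- A chain of `k` small connected open sets which cover the space. -/
structure Ch (ε : ℝ) (k : ℕ) (W : ℕ → Set X) : Prop where
  op : ∀ i < k, IsOpen (W i)
  conn : ∀ i < k, IsConnected (W i)
  small : ∀ i < k, ∀ x ∈ W i, ∀ y ∈ W i, dist x y ≤ ε
  next : ∀ i, i + 1 < k → (W i ∩ W (i + 1)).Nonempty
  cover : ∀ x, ∃ i < k, x ∈ W i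

end

/-- A path can be thinned out, by a monotone change of the parameter, to a path whose fibres are
intervals. -/
def S_ARC1 : Prop := ∀ (X : Type) [MetricSpace X] (σ : ℝ → X), Continuous σ →
  ∃ m : ℝ → ℝ, (∀ s t : ℝ, 0 ≤ s → s ≤ t → t ≤ 1 → m s ≤ m t) ∧
    (∀ t ∈ Icc (0 : ℝ) 1, m t ∈ Icc (0 : ℝ) 1) ∧ σ (m 0) = σ 0 ∧ σ (m 1) = σ 1 ∧
    ContinuousOn (fun t => σ (m t)) (Icc 0 1) ∧
    ∀ s t : ℝ, 0 ≤ s → s ≤ t → t ≤ 1 → σ (m s) = σ (m t) →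
      ∀ r, s ≤ r → r ≤ t → σ (m r) = σ (m s)

/-- A path whose fibres are intervals is reparametrised to an arc. -/
def S_ARC2 : Prop := ∀ (X : Type) [MetricSpace X] (f : ℝ → X), ContinuousOn f (Icc 0 1) →
  f 0 ≠ f 1 → (∀ s t : ℝ, 0 ≤ s → s ≤ t → t ≤ 1 → f s = f t → ∀ r, s ≤ r → r ≤ t → f r = f s) →
  ∃ (α : ℝ → X) (ψ : ℝ → ℝ) (θ : X → ℝ), Continuous α ∧ Continuous θ ∧
    (∀ t ∈ Icc (0 : ℝ) 1, θ (α t) = t) ∧ α 0 = f 0 ∧ α 1 = f 1 ∧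
    (∀ s t : ℝ, 0 ≤ s → s ≤ t → t ≤ 1 → ψ s ≤ ψ t) ∧
    ∀ t ∈ Icc (0 : ℝ) 1, ψ t ∈ Icc (0 : ℝ) 1 ∧ α t = f (ψ t)

/-- Every path contains an arc with the same ends. -/
def S_ARC : Prop := ∀ (X : Type) [MetricSpace X] (σ : ℝ → X), Continuous σ → σ 0 ≠ σ 1 →
  ∃ (α : ℝ → X) (ψ : ℝ → ℝ) (θ : X → ℝ), Continuous α ∧ Continuous θ ∧
    (∀ t ∈ Icc (0 : ℝ) 1, θ (α t) = t) ∧ α 0 = σ 0 ∧ α 1 = σ 1 ∧
    (∀ s t : ℝ, 0 ≤ s → s ≤ t → t ≤ 1 → ψ s ≤ ψ t) ∧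
    ∀ t ∈ Icc (0 : ℝ) 1, ψ t ∈ Icc (0 : ℝ) 1 ∧ α t = σ (ψ t)

/-- Chains can be refined. -/
def S_HM1 : Prop := ∀ (X : Type) [MetricSpace X] [CompactSpace X] [ConnectedSpace X]
  [LocallyConnectedSpace X] (ε : ℝ) (k : ℕ) (W : ℕ → Set X), Ch ε k W → ∀ ε' > 0,
  ∃ (m : ℕ) (W' : ℕ → Set X), 0 < m ∧ Ch ε' (k * m) W' ∧
    ∀ i < k, ∀ j < m, (W' (i * m + j) ∩ W i).Nonempty

/-- Hahn-Mazurkiewicz. -/
def S_HM : Prop := ∀ (X : Type) [MetricSpace X] [CompactSpace X] [ConnectedSpace X]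
  [LocallyConnectedSpace X], ∃ q : unitInterval → X, Continuous q ∧ Function.Surjective q

def S_POLY : Prop := ∀ (X : Type) [MetricSpace X] (q : unitInterval → X), Continuous q →
  Function.Surjective q → Pol X

/-- New levels are inserted. -/
def S_INSERT : Prop := ∀ (X : Type) [MetricSpace X], Pol X → ∀ (M : ℕ) (F : ℕ → Set X)
  (H : Set X) (l : X → ℝ) (ε : ℝ), Lev M F → Nw M F H l → Acc M F H ε → ∀ η > 0,
  ∃ (F' : ℕ → Set X) (G : ℝ → ℝ), Lev (2 * M) F' ∧ (∀ i ≤ M, F' (2 * i) = F i) ∧ Monotone G ∧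
    Nw (2 * M) F' H (fun x => G (l x)) ∧ Acc (2 * M) F' H (ε + η)

/-- One arc is added. -/
def S_ADDARC : Prop := ∀ (X : Type) [MetricSpace X] [CompactSpace X] (M : ℕ) (F : ℕ → Set X)
  (j : ℕ) (Hb H B D : Set X) (l : X → ℝ) (S : Set X) (ε κ : ℝ), Lev M F → j < M →
  Sh M F j Hb H B D l S ε κ → ∀ p ∈ B, ∀ z₀ ∈ Hb ∪ F 0,
  JoinedIn (F (j + 1) ∩ Metric.closedBall p ε) p z₀ → ∀ τ > 0,
  ∃ (B' D' : Set X) (l' : X → ℝ), Sh M F j Hb H B' D' l' (S \ {p}) ε (κ + τ) ∧ B ⊆ B' ∧ D ⊆ D' ∧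
    ∀ x ∈ H ∪ B ∪ D, l' x = l x

/-- Finitely many points are put into the network. -/
def S_ADD : Prop := ∀ (X : Type) [MetricSpace X] [CompactSpace X] (M : ℕ) (F : ℕ → Set X)
  (H : Set X) (l : X → ℝ) (ε : ℝ), Lev M F → Nw M F H l → Acc M F H ε → 0 ≤ ε → ∀ τ > 0,
  ∀ T : Finset X, ∃ (H' : Set X) (l' : X → ℝ), Nw M F H' l' ∧ H ⊆ H' ∧ (∀ x ∈ H, l' x = l x) ∧
    (∀ x ∈ T, x ∈ H' ∪ F 0) ∧
    ∀ x ∈ H', ∃ z ∈ H ∪ F 0, Desc l' (H' ∩ Metric.closedBall x (M * (2 * ε + τ))) x z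

/-- One stage of the construction. -/
def S_STEP : Prop := ∀ (X : Type) [MetricSpace X] [CompactSpace X], Pol X → ∀ (M : ℕ)
  (F : ℕ → Set X) (H : Set X) (l : X → ℝ) (ε : ℝ), Lev M F → Nw M F H l → Acc M F H ε → 0 ≤ ε →
  ∀ η > 0, ∀ T : Finset X, ∃ (F' : ℕ → Set X) (H' : Set X) (l' : X → ℝ) (G : ℝ → ℝ),
    Lev (2 * M) F' ∧ (∀ i ≤ M, F' (2 * i) = F i) ∧ Nw (2 * M) F' H' l' ∧ H ⊆ H' ∧ Monotone G ∧
    (∀ x ∈ H, l' x = G (l x)) ∧ (∀ x ∈ T, x ∈ H' ∪ F 0) ∧ Acc (2 * M) F' H' η ∧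
    ∀ x ∈ H', ∃ z ∈ H ∪ F 0,
      Desc l' (H' ∩ Metric.closedBall x (2 * M * (2 * (ε + η) + η))) x z

/-- The limit function. -/
def S_LIM : Prop := ∀ (X : Type) [MetricSpace X] (F : ℕ → ℕ → Set X) (H : ℕ → Set X)
  (l : ℕ → X → ℝ) (G : ℕ → ℝ → ℝ), (∀ n, Lev (4 * 2 ^ n) (F n)) →
  (∀ n, Nw (4 * 2 ^ n) (F n) (H n) (l n)) →
  (∀ n i, i ≤ 4 * 2 ^ n → F (n + 1) (2 * i) = F n i) → (∀ n, H n ⊆ H (n + 1)) →
  (∀ n, Monotone (G n)) → (∀ n, ∀ x ∈ H n, l (n + 1) x = G n (l n x)) →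
  ∃ L : X → ℝ, Continuous L ∧ (∀ x, 0 ≤ L x ∧ L x ≤ 4) ∧
    (∀ i ≤ 4, ∀ x ∈ F 0 i, L x ≤ (i : ℝ)) ∧ (∀ i ≤ 4, ∀ x, x ∉ F 0 i → (i : ℝ) ≤ L x) ∧
    ∀ (n : ℕ) (A : Set X) (x y : X), A ⊆ H n → Desc (l n) A x y → Desc L A x y

/-- The level function. -/
def S_MAIN : Prop := ∀ (X : Type) [MetricSpace X] [CompactSpace X], Pol X → ∀ (u : ℕ → X)
  (F : ℕ → Set X), Lev 4 F → (∀ i ≤ 4, ∀ x ∈ F i, ∃ z ∈ F 0, JoinedIn (F i) x z) →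
  ∃ L : X → ℝ, Continuous L ∧ (∀ x, 0 ≤ L x ∧ L x ≤ 4) ∧ (∀ i ≤ 4, ∀ x ∈ F i, L x ≤ (i : ℝ)) ∧
    (∀ i ≤ 4, ∀ x, x ∉ F i → (i : ℝ) ≤ L x) ∧ (∀ k, ∃ z ∈ F 0, Desc L univ (u k) z) ∧
    ∀ η > 0, ∃ P : Finset X, ∀ k, ∃ z, ∃ p ∈ P, Desc L (Metric.closedBall (u k) η) (u k) z ∧
      (Desc L (Metric.closedBall (u k) η) z p ∨ Desc L (Metric.closedBall (u k) η) p z)

/-- The first five levels. -/
def S_GROW : Prop := ∀ (X : Type) [MetricSpace X] [CompactSpace X] [PathConnectedSpace X],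
  Pol X → ∀ (y : X) (r R : ℝ) (W : Set X), IsOpen W → IsPathConnected W →
  Metric.closedBall y r ⊆ W → W ⊆ Metric.ball y R → ∀ (y' : X) (V : Set X), IsOpen V → y' ∈ V →
  V ⊆ Metric.ball y r → ∃ F : ℕ → Set X, Lev 4 F ∧ y' ∈ interior (F 0) ∧ F 1 ⊆ V ∧
    Metric.ball y r ⊆ F 2 ∧ F 3 ⊆ Metric.ball y R ∧ ∀ i ≤ 4, ∀ x ∈ F i, JoinedIn (F i) x y'

end Pool.Agent.W618.PC
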