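import Mathlib
import Pool.Agent.W618.PC.Stms

/-!
# Basic facts on descending paths, networks and levels
-/

open Set Topology Filter

namespace Pool.Agent.W618.PC

open Pool.Agent.W618.IFS

variable {X : Type} [MetricSpace X]

theorem Desc.refl {l : X → ℝ} {A : Set X} {x : X} (h : x ∈ A) : Desc l A x x :=
  ⟨fun _ => x, continuous_const, rfl, rfl, fun _ _ => h, fun _ _ _ _ _ => le_rfl⟩

theorem Desc.mono {l : X → ℝ} {A A' : Set X} {x y : X} (h : Desc l A x y) (hA : A ⊆ A') :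
    Desc l A' x y := by
  obtain ⟨σ, h1, h2, h3, h4, h5⟩ := h
  exact ⟨σ, h1, h2, h3, fun s hs => hA (h4 s hs), h5⟩

theorem Desc.congr {l l' : X → ℝ} {A : Set X} {x y : X} (h : Desc l A x y)
    (hl : ∀ z ∈ A, l' z = l z) : Desc l' A x y := by
  obtain ⟨σ, h1, h2, h3, h4, h5⟩ := h
  refine ⟨σ, h1, h2, h3, h4, fun s t hs hst ht => ?_⟩
  rw [hl _ (h4 s ⟨hs, hst.trans ht⟩), hl _ (h4 t ⟨hs.trans hst, ht⟩)]
  exact h5 s t hs hst ht

theorem Desc.comp {l : X → ℝ} {A : Set X} {x y : X} (h : Desc l A x y) {G : ℝ → ℝ}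
    (hG : Monotone G) : Desc (fun x => G (l x)) A x y := by
  obtain ⟨σ, h1, h2, h3, h4, h5⟩ := h
  exact ⟨σ, h1, h2, h3, h4, fun s t hs hst ht => hG (h5 s t hs hst ht)⟩

theorem Desc.source {l : X → ℝ} {A : Set X} {x y : X} (h : Desc l A x y) : x ∈ A := by
  obtain ⟨σ, h1, h2, h3, h4, h5⟩ := h
  rw [← h2]
  exact h4 0 ⟨le_rfl, zero_le_one⟩

theorem Desc.target {l : X → ℝ} {A : Set X} {x y : X} (h : Desc l A x y) : y ∈ A := by
  obtain ⟨σ, h1, h2, h3, h4, h5⟩ := h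
  rw [← h3]
  exact h4 1 ⟨zero_le_one, le_rfl⟩

theorem Desc.le {l : X → ℝ} {A : Set X} {x y : X} (h : Desc l A x y) : l y ≤ l x := by
  obtain ⟨σ, h1, h2, h3, h4, h5⟩ := h
  rw [← h2, ← h3]
  exact h5 0 1 le_rfl zero_le_one le_rfl

/-- A piece of a path along which `l` does not increase. -/
theorem Desc.of_piece {l : X → ℝ} {A : Set X} {ω : ℝ → X} (hω : Continuous ω) {a b : ℝ}
    (hab : a ≤ b) (hA : ∀ t ∈ Icc a b, ω t ∈ A)
    (hl : ∀ s t : ℝ, a ≤ s → s ≤ t → t ≤ b → l (ω t) ≤ l (ω s)) : Desc l A (ω a) (ω b) := by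
  have hI : ∀ s : ℝ, 0 ≤ s → s ≤ 1 → a ≤ a + (b - a) * s ∧ a + (b - a) * s ≤ b := by
    intro s hs hs'
    have h1 : 0 ≤ b - a := by linarith
    constructor <;> nlinarith
  refine ⟨fun s => ω (a + (b - a) * s), hω.comp (by fun_prop), by simp, by simp,
    fun s hs => hA _ (hI s hs.1 hs.2), fun s t hs hst ht => ?_⟩
  refine hl _ _ (hI s hs (hst.trans ht)).1 ?_ (hI t (hs.trans hst) ht).2
  have h1 : 0 ≤ b - a := by linarith
  nlinarith

theorem Desc.trans {l : X → ℝ} {A : Set X} {x y z : X} (h : Desc l A x y) (h' : Desc l A y z) :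
    Desc l A x z := by
  obtain ⟨σ, h1, h2, h3, h4, h5⟩ := h
  obtain ⟨τ, g1, g2, g3, g4, g5⟩ := h'
  have ha : (0 : ℝ) < 1 / 2 := by norm_num
  have ha1 : (1 : ℝ) / 2 < 1 := by norm_num
  refine ⟨cat (1 / 2) σ τ, cat_cont ha h1 g1 (h3.trans g2.symm), by rw [cat_zero ha, h2],
    by rw [cat_one ha1, g3], cat_mem ha ha1 h4 g4, fun s t hs hst ht => ?_⟩
  unfold cat
  by_cases ht2 : t ≤ 1 / 2
  · rw [if_pos ht2, if_pos (hst.trans ht2)]
    exact h5 _ _ (by positivity) (by gcongr) (by rw [div_le_one ha]; exact ht2)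
  · rw [if_neg ht2]
    push Not at ht2
    by_cases hs2 : s ≤ 1 / 2
    · rw [if_pos hs2]
      have h6 := h5 (s / (1 / 2)) 1 (by positivity) (by rw [div_le_one ha]; exact hs2) le_rfl
      have h7 := g5 0 ((t - 1 / 2) / (1 - 1 / 2)) le_rfl
        (div_nonneg (by linarith) (by norm_num)) (by rw [div_le_one (by norm_num)]; linarith)
      rw [h3] at h6
      rw [g2] at h7
      exact h7.trans h6
    · rw [if_neg hs2]
      push Not at hs2
      exact g5 _ _ (div_nonneg (by linarith) (by norm_num)) (by gcongr)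
        (by rw [div_le_one (by norm_num)]; linarith)

/-- A path in a set where `l` is constant. -/
theorem Desc.of_joinedIn {l : X → ℝ} {A : Set X} {x y : X} (h : JoinedIn A x y) {c : ℝ}
    (hl : ∀ z ∈ A, l z = c) : Desc l A x y := by
  obtain ⟨γ, hγ⟩ := h
  have hm : ∀ s ∈ Icc (0 : ℝ) 1, γ.extend s ∈ A := by
    intro s hs
    rw [Path.extend_apply γ hs]
    exact hγ _
  refine ⟨γ.extend, γ.continuous_extend, γ.extend_zero, γ.extend_one, hm,
    fun s t hs hst ht => ?_⟩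
  rw [hl _ (hm s ⟨hs, hst.trans ht⟩), hl _ (hm t ⟨hs.trans hst, ht⟩)]

theorem joinedIn_of_path {A : Set X} {σ : ℝ → X} (hσ : Continuous σ) {a b : ℝ} (hab : a ≤ b)
    (hA : ∀ t ∈ Icc a b, σ t ∈ A) : JoinedIn A (σ a) (σ b) := by
  have h1 : IsPathConnected (σ '' Icc a b) :=
    ((convex_Icc a b).isPathConnected ⟨a, left_mem_Icc.2 hab⟩).image hσ
  refine (h1.joinedIn _ (mem_image_of_mem _ (left_mem_Icc.2 hab)) _
    (mem_image_of_mem _ (right_mem_Icc.2 hab))).mono ?_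
  rintro _ ⟨t, ht, rfl⟩
  exact hA t ht

theorem Desc.joinedIn {l : X → ℝ} {A : Set X} {x y : X} (h : Desc l A x y) : JoinedIn A x y := by
  obtain ⟨σ, h1, h2, h3, h4, h5⟩ := h
  have := joinedIn_of_path h1 zero_le_one h4
  rwa [h2, h3] at this

/-- a joined pair gives a path on the real line -/
theorem exists_path {A : Set X} {x y : X} (h : JoinedIn A x y) : ∃ σ : ℝ → X, Continuous σ ∧
    σ 0 = x ∧ σ 1 = y ∧ ∀ s ∈ Icc (0 : ℝ) 1, σ s ∈ A := by
  obtain ⟨γ, hγ⟩ := h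
  refine ⟨γ.extend, γ.continuous_extend, γ.extend_zero, γ.extend_one, fun s hs => ?_⟩
  rw [Path.extend_apply γ hs]
  exact hγ _

/-- The last field of `Nw`. -/
def NetOn (l : X → ℝ) (H : Set X) : Prop :=
  ∀ δ > 0, ∃ P : Finset X, ∀ x ∈ H, ∃ p ∈ P,
    Desc l (H ∩ Metric.closedBall x δ) x p ∨ Desc l (H ∩ Metric.closedBall x δ) p x

theorem NetOn.congr {l l' : X → ℝ} {H : Set X} (h : NetOn l H) (hl : ∀ x ∈ H, l' x = l x) :
    NetOn l' H := by
  intro δ hδ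
  obtain ⟨P, hP⟩ := h δ hδ
  refine ⟨P, fun x hx => ?_⟩
  obtain ⟨p, hp, h1 | h1⟩ := hP x hx
  · exact ⟨p, hp, Or.inl (h1.congr fun z hz => hl z hz.1)⟩
  · exact ⟨p, hp, Or.inr (h1.congr fun z hz => hl z hz.1)⟩

theorem NetOn.comp {l : X → ℝ} {H : Set X} (h : NetOn l H) {G : ℝ → ℝ} (hG : Monotone G) :
    NetOn (fun x => G (l x)) H := by
  intro δ hδ
  obtain ⟨P, hP⟩ := h δ hδ
  refine ⟨P, fun x hx => ?_⟩
  obtain ⟨p, hp, h1 | h1⟩ := hP x hx
  · exact ⟨p, hp, Or.inl (h1.comp hG)⟩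
  · exact ⟨p, hp, Or.inr (h1.comp hG)⟩

theorem NetOn.union {l : X → ℝ} {H K : Set X} (h : NetOn l H) (h' : NetOn l K) :
    NetOn l (H ∪ K) := by
  classical
  intro δ hδ
  obtain ⟨P, hP⟩ := h δ hδ
  obtain ⟨Q, hQ⟩ := h' δ hδ
  refine ⟨P ∪ Q, fun x hx => ?_⟩
  rcases hx with hx | hx
  · obtain ⟨p, hp, h1 | h1⟩ := hP x hx
    · exact ⟨p, Finset.mem_union_left _ hp,
        Or.inl (h1.mono (inter_subset_inter_left _ subset_union_left))⟩
    · exact ⟨p, Finset.mem_union_left _ hp,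
        Or.inr (h1.mono (inter_subset_inter_left _ subset_union_left))⟩
  · obtain ⟨p, hp, h1 | h1⟩ := hQ x hx
    · exact ⟨p, Finset.mem_union_right _ hp,
        Or.inl (h1.mono (inter_subset_inter_left _ subset_union_right))⟩
    · exact ⟨p, Finset.mem_union_right _ hp,
        Or.inr (h1.mono (inter_subset_inter_left _ subset_union_right))⟩

theorem netOn_finite {l : X → ℝ} {S : Set X} (hS : S.Finite) : NetOn l S := by
  intro δ hδ
  refine ⟨hS.toFinset, fun x hx => ⟨x, hS.mem_toFinset.2 hx, Or.inl (Desc.refl ⟨hx, ?_⟩)⟩⟩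
  exact Metric.mem_closedBall_self hδ.le

/-- An arc, or any path piece, along which `l` does not increase. -/
theorem netOn_piece {l : X → ℝ} {ω : ℝ → X} (hω : Continuous ω) {a b : ℝ}
    (hl : ∀ s t : ℝ, a ≤ s → s ≤ t → t ≤ b → l (ω t) ≤ l (ω s)) : NetOn l (ω '' Icc a b) := by
  classical
  intro δ hδ
  have huc : UniformContinuousOn ω (Icc a b) :=
    isCompact_Icc.uniformContinuousOn_of_continuous hω.continuousOn
  obtain ⟨κ, hκ, hκ'⟩ := Metric.uniformContinuousOn_iff.1 huc δ hδ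
  obtain ⟨N, hN⟩ := exists_nat_gt ((b - a) / (κ / 2))
  refine ⟨(Finset.range (N + 1)).image fun k : ℕ => ω (a + (k : ℝ) * (κ / 2)), ?_⟩
  rintro _ ⟨t, ⟨hat, htb⟩, rfl⟩
  have hκ2 : 0 < κ / 2 := by positivity
  have h0 : 0 ≤ (t - a) / (κ / 2) := div_nonneg (by linarith) hκ2.le
  set k := ⌊(t - a) / (κ / 2)⌋₊ with hk
  have h1 : (k : ℝ) ≤ (t - a) / (κ / 2) := Nat.floor_le h0
  have h2 : (t - a) / (κ / 2) < k + 1 := Nat.lt_floor_add_one _
  rw [le_div_iff₀ hκ2] at h1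
  rw [div_lt_iff₀ hκ2] at h2
  rw [div_lt_iff₀ hκ2] at hN
  have hkN : k < N + 1 := by
    have h3 : (k : ℝ) * (κ / 2) < N * (κ / 2) := by linarith
    have h4 : (k : ℝ) < N := lt_of_mul_lt_mul_right h3 hκ2.le
    have : k < N := by exact_mod_cast h4
    omega
  refine ⟨ω (a + (k : ℝ) * (κ / 2)), Finset.mem_image.2 ⟨k, Finset.mem_range.2 hkN, rfl⟩,
    Or.inr ?_⟩
  have hk0 : 0 ≤ (k : ℝ) * (κ / 2) := by positivity
  refine Desc.of_piece hω (by linarith) (fun s hs => ⟨?_, ?_⟩) fun s s' hs hss hs' =>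
    hl s s' (by linarith) hss (by linarith)
  · exact mem_image_of_mem _ ⟨by linarith [hs.1], hs.2.trans htb⟩
  · refine Metric.mem_closedBall.2 (hκ' s ⟨by linarith [hs.1], hs.2.trans htb⟩ t ⟨hat, htb⟩ ?_).le
    rw [Real.dist_eq, abs_sub_comm, abs_of_nonneg (by linarith [hs.2])]
    have := hs.1
    nlinarith

theorem Lev.closed {M : ℕ} {F : ℕ → Set X} (h : Lev M F) {i : ℕ} (hi : i ≤ M) : IsClosed (F i) :=
  (h.fine i hi).1

theorem Lev.mono {M : ℕ} {F : ℕ → Set X} (h : Lev M F) {i j : ℕ} (hij : i ≤ j) (hj : j ≤ M) :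
    F i ⊆ F j := by
  induction j, hij using Nat.le_induction with
  | base => exact Subset.rfl
  | succ j hij ih =>
    exact (ih (by omega)).trans ((h.step j (by omega)).trans interior_subset)

theorem Lev.mono_int {M : ℕ} {F : ℕ → Set X} (h : Lev M F) {i j : ℕ} (hij : i < j) (hj : j ≤ M) :
    F i ⊆ interior (F j) :=
  (h.step i (by omega)).trans (interior_mono (h.mono (by omega) hj))

end Pool.Agent.W618.PC
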