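import Mathlib
import Pool.Agent.W618.PC.Desc
import Pool.Agent.W618.IFS.Supply
import Pool.Agent.W618.IFS.FreeArc

/-!
# From level functions to the supply of cells
-/

open Set Topology Filter

namespace Pool.Agent.W618.PC

open Pool.Agent.W618.IFS

/-- Arcs are thin. -/
def NoFree (X : Type) [MetricSpace X] : Prop :=
  ∀ α : ℝ → X, Continuous α → InjOn α (Icc 0 1) → Thin (α '' Icc 0 1)

section

variable {X : Type} [MetricSpace X]

theorem exists_arc (arc : S_ARC) {l : X → ℝ} {A : Set X} {x y : X} (h : Desc l A x y)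
    (hxy : x ≠ y) : ∃ (α : ℝ → X), Continuous α ∧ InjOn α (Icc 0 1) ∧ α 0 = x ∧ α 1 = y ∧
      (∀ t ∈ Icc (0 : ℝ) 1, α t ∈ A) ∧ ∀ s t : ℝ, 0 ≤ s → s ≤ t → t ≤ 1 → l (α t) ≤ l (α s) := by
  obtain ⟨σ, h1, h2, h3, h4, h5⟩ := h
  obtain ⟨α, ψ, θ, g1, g2, g3, g4, g5, g6, g7⟩ := arc X σ h1 (by rw [h2, h3]; exact hxy)
  refine ⟨α, g1, fun s hs t ht hst => ?_, g4.trans h2, g5.trans h3, fun t ht => ?_,
    fun s t hs hst ht => ?_⟩
  · rw [← g3 s hs, ← g3 t ht, hst]
  · rw [(g7 t ht).2]
    exact h4 _ (g7 t ht).1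
  · have hsI : s ∈ Icc (0 : ℝ) 1 := ⟨hs, hst.trans ht⟩
    have htI : t ∈ Icc (0 : ℝ) 1 := ⟨hs.trans hst, ht⟩
    rw [(g7 s hsI).2, (g7 t htI).2]
    exact h5 _ _ (g7 s hsI).1.1 (g6 s t hs hst ht) (g7 t htI).1.2

theorem thin_singleton (arc : S_ARC) (hnf : NoFree X) [PathConnectedSpace X] [Nontrivial X]
    (x : X) : ∃ F, Thin F ∧ x ∈ F := by
  obtain ⟨z, hz⟩ := exists_ne x
  have h1 : JoinedIn (univ : Set X) x z :=
    (isPathConnected_univ (X := X)).joinedIn x (mem_univ _) z (mem_univ _)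
  obtain ⟨α, h2, h3, h4, h5, h6, h7⟩ := exists_arc arc
    (Desc.of_joinedIn (l := fun _ => 0) (c := 0) h1 fun _ _ => rfl) (Ne.symm hz)
  exact ⟨_, hnf α h2 h3, 0, ⟨le_rfl, zero_le_one⟩, h4⟩

/-- A descending path gives a path of small cost. -/
theorem pathIn_of_desc (arc : S_ARC) (hnf : NoFree X) [PathConnectedSpace X] [Nontrivial X]
    {L v : X → ℝ} (hv : Continuous v) (hLv : ∀ a b, L a ≤ L b → v b ≤ v a) {A : Set X} {x y : X}
    (h : Desc L A x y) {κ K : ℝ} (hκ : 0 < κ) (hK : v y - v x + κ ≤ K) :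
    PathIn (fun a b => |v a - v b|) K A y x := by
  by_cases hxy : x = y
  · obtain ⟨F, hF, hxF⟩ := thin_singleton arc hnf x
    subst hxy
    have := pathIn_of_antitone (X := X) hv (σ0 := fun _ => x) continuous_const
      (fun _ _ _ _ _ => le_rfl) hκ hK (fun _ _ => h.source) hF (fun _ _ => hxF)
    exact this
  · obtain ⟨α, h1, h2, h3, h4, h5, h6⟩ := exists_arc arc h hxy
    have hI : ∀ s : ℝ, s ∈ Icc (0 : ℝ) 1 → 1 - s ∈ Icc (0 : ℝ) 1 := by
      rintro s ⟨hs, hs'⟩; constructor <;> linarith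
    have := pathIn_of_antitone (X := X) hv (σ0 := fun s => α (1 - s)) (A := A)
      (h1.comp (by fun_prop)) (fun s t hs hst ht => hLv _ _ (h6 (1 - t) (1 - s) (by linarith)
        (by linarith) (by linarith))) hκ (K := K) (by simp only [sub_zero, sub_self]; rw [h3, h4]; exact hK)
      (fun s hs => h5 _ (hI s hs)) (hnf α h1 h2) (fun s hs => mem_image_of_mem α (hI s hs))
    simp only [sub_zero, sub_self] at this
    rwa [h3, h4] at this

theorem pm_abs (v : X → ℝ) : PM (fun a b => |v a - v b|) where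
  refl a := by simp
  nonneg a b := abs_nonneg _
  symm a b := abs_sub_comm _ _
  tri a b c := abs_sub_le _ _ _

variable [CompactSpace X] [PathConnectedSpace X] [Nontrivial X]

theorem ccat (arc : S_ARC) (main : S_MAIN) (grow : S_GROW) (hpol : Pol X) (hnf : NoFree X)
    (u : ℕ → X) (y : X) (r R : ℝ) (W : Set X) (hr : 0 < r) (hW : IsOpen W)
    (hWc : IsPathConnected W) (hyW : Metric.closedBall y r ⊆ W) (hWR : W ⊆ Metric.ball y R) :
    CCat (range u) y R r := by
  intro Γ hΓ ε hε
  obtain ⟨F0, hF0, hyF⟩ := thin_singleton arc hnf y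
  have hthin := hΓ.union hF0
  have hdense : Dense (Γ ∪ F0)ᶜ := interior_eq_empty_iff_dense_compl.1 hthin.2
  obtain ⟨y', hy'1, hy'2⟩ := hdense.exists_mem_open (Metric.isOpen_ball (x := y) (ε := r / 4))
    ⟨y, Metric.mem_ball_self (by positivity)⟩
  rw [Metric.mem_ball] at hy'2
  -- the small neighbourhood
  obtain ⟨V, hV⟩ : ∃ V, V = (Γ ∪ F0)ᶜ ∩ Metric.ball y (r / 4) := ⟨_, rfl⟩
  have hVo : IsOpen V := by rw [hV]; exact hthin.1.isOpen_compl.inter Metric.isOpen_ball
  have hVr : V ⊆ Metric.ball y (r / 4) := by rw [hV]; exact inter_subset_right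
  have hy'V : y' ∈ V := by rw [hV]; exact ⟨hy'1, Metric.mem_ball.2 hy'2⟩
  obtain ⟨F, hLev, hF1, hF2, hF3, hF4, hF5⟩ := grow X hpol y r R W hW hWc hyW hWR y' V hVo hy'V
    (hVr.trans (Metric.ball_subset_ball (by linarith)))
  have hy'F : y' ∈ F 0 := interior_subset hF1
  obtain ⟨u', hu'0, hu's⟩ : ∃ u' : ℕ → X, u' 0 = y ∧ ∀ n, u' (n + 1) = u n :=
    ⟨fun n => Nat.casesOn n y u, rfl, fun _ => rfl⟩
  obtain ⟨L, hLc, hLb, hLF, hLF', hLd, hLn⟩ := main X hpol u' F hLev
    fun i hi x hx => ⟨y', hy'F, hF5 i hi x hx⟩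
  set v : X → ℝ := fun x => cl01 (1 - L x) with hv
  have hvc : Continuous v := cl01_cont.comp (by fun_prop)
  have hLv : ∀ a b, L a ≤ L b → v b ≤ v a := fun a b hab => cl01_mono (by linarith)
  have hvL : ∀ a b, v a - v b ≤ |L a - L b| := by
    intro a b
    have h1 := cl01_lip (1 - L a) (1 - L b)
    have h2 : 1 - L a - (1 - L b) = -(L a - L b) := by ring
    rw [h2, abs_neg] at h1
    exact (le_abs_self _).trans h1
  have hv0 : ∀ x, x ∉ F 1 → v x = 0 := by
    intro x hx
    have h1 := hLF' 1 (by norm_num) x hx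
    rw [Nat.cast_one] at h1
    rw [hv]
    simp only [cl01]
    rw [max_eq_left]
    exact (min_le_left _ _).trans (by linarith)
  have hL0 : ∀ x ∈ F 0, L x = 0 := by
    intro x hx
    have h1 := hLF 0 (by norm_num) x hx
    rw [Nat.cast_zero] at h1
    exact le_antisymm h1 (hLb x).1
  have hv1 : ∀ x ∈ F 0, v x = 1 := by
    intro x hx
    rw [hv]
    simp only [cl01]
    rw [hL0 x hx, sub_zero, min_self, max_eq_right zero_le_one]
  have hF03 : F 0 ⊆ F 3 := hLev.mono (by norm_num) (by norm_num)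
  have hpath : ∀ k, dist (u' k) y < r →
      PathIn (fun a b => |v a - v b|) (1 + ε) (Metric.ball y R) y' (u' k) := by
    intro k hk
    have hL2 : L (u' k) ≤ 2 := by
      have := hLF 2 (by norm_num) (u' k) (hF3 (Metric.mem_ball.2 hk))
      exact_mod_cast this
    obtain ⟨z, hz, σ, h1, h2, h3, -, h5⟩ := hLd k
    have hσR : ∀ s ∈ Icc (0 : ℝ) 1, σ s ∈ Metric.ball y R := by
      intro s hs
      refine hF4 ?_
      by_contra hcon
      have h6 := hLF' 3 (by norm_num) _ hcon
      have h7 := h5 0 s le_rfl hs.1 hs.2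
      rw [h2] at h7
      norm_num at h6
      linarith
    have hd1 : Desc L (Metric.ball y R) (u' k) z := ⟨σ, h1, h2, h3, hσR, h5⟩
    have hd2 : Desc L (Metric.ball y R) z y' :=
      (Desc.of_joinedIn (hF5 0 (by norm_num) z hz) hL0).mono (hF03.trans hF4)
    refine pathIn_of_desc arc hnf hvc hLv (hd1.trans hd2) hε ?_
    have h8 := (cl01_mem (1 - L y')).2
    have h9 := (cl01_mem (1 - L (u' k))).1
    simp only [hv]
    linarith
  obtain ⟨δ1, hδ1, hδ1'⟩ := Metric.isOpen_iff.1 (hLev.closed (i := 1) (by norm_num)).isOpen_compl y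
    (show y ∈ (F 1)ᶜ by
      intro hy
      have := hF2 hy
      rw [hV] at this
      exact this.1 (Or.inr hyF))
  obtain ⟨δ2, hδ2, hδ2'⟩ := Metric.isOpen_iff.1 (isOpen_interior (s := F 0)) y' hF1
  refine ⟨y', v, range u', hvc, fun x => cl01_mem _, ?_, ⟨δ1, hδ1, fun x hx => hv0 x (hδ1' hx)⟩,
    ⟨δ2, hδ2, fun x hx => hv1 x (interior_subset (hδ2' hx))⟩, ?_, ?_, ?_, ?_, ?_⟩
  · intro x hx
    have h1 : x ∈ F 1 := by
      by_contra hcon
      rw [hv0 x hcon] at hx
      exact lt_irrefl _ hx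
    have := Metric.mem_ball.1 (hVr (hF2 h1))
    linarith
  · intro x hx
    refine hv0 x fun h1 => ?_
    have := hF2 h1
    rw [hV] at this
    exact this.1 (Or.inl hx)
  · rintro _ ⟨n, rfl⟩
    exact ⟨n + 1, hu's n⟩
  · -- the net
    intro η hη
    have huc : UniformContinuous L := CompactSpace.uniformContinuous_of_continuous hLc
    obtain ⟨δ, hδ, hδ'⟩ := Metric.uniformContinuous_iff.1 huc (η / 4) (by positivity)
    set η2 := min η (δ / 3) with hη2
    have hη20 : 0 < η2 := lt_min hη (by positivity)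
    have hη2a : η2 ≤ η := min_le_left _ _
    have hη2b : η2 ≤ δ / 3 := min_le_right _ _
    obtain ⟨P, hP⟩ := hLn η2 hη20
    refine ⟨P, ?_⟩
    rintro _ ⟨k, rfl⟩
    obtain ⟨z, p, hp, h1, h2⟩ := hP k
    refine ⟨p, hp, ?_⟩
    have hz := Metric.mem_closedBall.1 h1.target
    have hpz : dist p (u' k) ≤ η2 := by
      rcases h2 with h2 | h2
      · exact Metric.mem_closedBall.1 h2.target
      · exact Metric.mem_closedBall.1 h2.source
    have hLz : |L z - L (u' k)| < η / 4 := by
      have := hδ' (show dist z (u' k) < δ by linarith)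
      rwa [Real.dist_eq] at this
    have hLp : |L z - L p| < η / 4 := by
      have h3 := dist_triangle_right z p (u' k)
      have := hδ' (show dist z p < δ by linarith)
      rwa [Real.dist_eq] at this
    have hsub : Metric.closedBall (u' k) η2 ⊆ Metric.closedBall (u' k) η :=
      Metric.closedBall_subset_closedBall hη2a
    have h3 : PathIn (fun a b => |v a - v b|) (η / 2) (Metric.closedBall (u' k) η) z (u' k) := by
      refine pathIn_of_desc arc hnf hvc hLv (h1.mono hsub) (κ := η / 4) (by positivity) ?_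
      have := hvL z (u' k)
      linarith
    have h4 : PathIn (fun a b => |v a - v b|) (η / 2) (Metric.closedBall (u' k) η) p z := by
      rcases h2 with h2 | h2
      · refine pathIn_of_desc arc hnf hvc hLv (h2.mono hsub) (κ := η / 4) (by positivity) ?_
        have := hvL p z
        rw [abs_sub_comm] at this
        linarith
      · refine PathIn.symm (pathIn_of_desc arc hnf hvc hLv (h2.mono hsub) (κ := η / 4)
          (by positivity) ?_)
        have := hvL z p
        linarith
    exact PathIn.trans (pm_abs v) h4 h3 (a := 1 / 2) (by norm_num) (by norm_num) (by linarith)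
      (by linarith)
  · have := hpath 0 (by rw [hu'0, dist_self]; exact hr)
    rw [hu'0] at this
    exact this.symm
  · rintro _ ⟨k, rfl⟩ hk
    exact hpath k hk

theorem net_zero (arc : S_ARC) (hpol : Pol X) (hnf : NoFree X) :
    Net (fun _ _ : X => (0 : ℝ)) univ := by
  intro η hη
  obtain ⟨T, -, hT⟩ := hpol.1.2 η hη
  refine ⟨T, fun x _ => ?_⟩
  obtain ⟨p, hp, h1⟩ := hT x (mem_univ x)
  refine ⟨p, hp, ?_⟩
  have h2 : Desc (fun _ : X => (0 : ℝ)) (Metric.closedBall x η) x p :=
    (Desc.of_joinedIn (l := fun _ => 0) (c := 0) h1 fun _ _ => rfl).mono inter_subset_right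
  have h3 := pathIn_of_desc arc hnf (v := fun _ : X => (0 : ℝ)) continuous_const
    (fun _ _ _ => le_rfl) h2 hη (K := η) (by simp)
  refine PathIn.mono_e h3 fun a _ b _ t ht => ?_
  simpa using ht

end

theorem attractor_of_parts (arc : S_ARC) (poly : S_POLY) (main : S_MAIN) (grow : S_GROW)
    (X : Type) [MetricSpace X] (q : unitInterval → X) (hq : Continuous q)
    (hqs : Function.Surjective q) : Pool.Agent.H764R3.TopFractal.IsTopologicalIFSAttractor X := by
  have hcomp : CompactSpace X := ⟨by rw [← hqs.range_eq]; exact isCompact_range hq⟩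
  have hpc0 : PathConnectedSpace unitInterval :=
    isPathConnected_iff_pathConnectedSpace.1 ((convex_Icc (0 : ℝ) 1).isPathConnected
      ⟨0, left_mem_Icc.2 zero_le_one⟩)
  have hpc : PathConnectedSpace X := hqs.pathConnectedSpace hq
  have hlpc0 : LocallyPathConnectedSpace unitInterval :=
    (isQuotientMap_projIcc (h := zero_le_one' ℝ)).locallyPathConnectedSpace
  have hlpc : LocallyPathConnectedSpace X :=
    (hq.isClosedMap.isQuotientMap hq hqs).locallyPathConnectedSpace
  have hne : Nonempty X := ⟨q 0⟩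
  rcases subsingleton_or_nontrivial X with hsub | hnt
  · exact attractor_of_subsingleton
  by_cases hfree : ∃ α : ℝ → X, Continuous α ∧ InjOn α (Icc 0 1) ∧
      (interior (α '' Icc 0 1)).Nonempty
  · obtain ⟨α, h1, h2, h3⟩ := hfree
    exact attractor_of_free_arc q hq hqs h1 h2 h3
  push Not at hfree
  have hnf : NoFree X := fun α h1 h2 =>
    ⟨(isCompact_Icc.image h1).isClosed, hfree α h1 h2⟩
  have hpol := poly X q hq hqs
  refine attractor_of_supply (Q := range (TopologicalSpace.denseSeq X))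
    (TopologicalSpace.denseRange_denseSeq X)
    (fun y R hR => ?_) ?_ (net_zero arc hpol hnf)
  · set W := pathComponentIn (Metric.ball y R) y with hW
    have hyB : y ∈ Metric.ball y R := Metric.mem_ball_self hR
    have hWo : IsOpen W := Metric.isOpen_ball.pathComponentIn y
    have hWc : IsPathConnected W := isPathConnected_pathComponentIn hyB
    have hyW : y ∈ W := mem_pathComponentIn_self hyB
    have hWR : W ⊆ Metric.ball y R := pathComponentIn_subset
    obtain ⟨δ, hδ, hδW⟩ := Metric.isOpen_iff.1 hWo y hyW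
    have hr : 0 < min (δ / 2) (R / 4) := lt_min (by positivity) (by positivity)
    refine ⟨min (δ / 2) (R / 4), hr, min_le_right _ _, ccat arc main grow hpol hnf _ y _ R W hr
      hWo hWc (fun x hx => hδW ?_) hWR⟩
    rw [Metric.mem_closedBall] at hx
    rw [Metric.mem_ball]
    have := min_le_left (δ / 2) (R / 4)
    linarith
  · obtain ⟨y⟩ := hne
    have hr : 0 < Metric.diam (univ : Set X) + 1 := by
      have := Metric.diam_nonneg (s := (univ : Set X)); linarith
    have hd : ∀ x, dist x y < Metric.diam (univ : Set X) + 1 := by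
      intro x
      have := Metric.dist_le_diam_of_mem (isCompact_univ (X := X)).isBounded (mem_univ x)
        (mem_univ y)
      linarith
    refine ⟨y, 4 * (Metric.diam (univ : Set X) + 1), Metric.diam (univ : Set X) + 1, hr,
      by linarith, ccat arc main grow hpol hnf _ y _ _ univ hr isOpen_univ isPathConnected_univ
        (subset_univ _) (fun x _ => ?_), hd⟩
    rw [Metric.mem_ball]
    have := hd x
    linarith

end Pool.Agent.W618.PC
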