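import Mathlib
import Pool.Agent.W618.PC.CC
import Pool.Agent.W366.PC.Arc1
import Pool.Agent.W366.PC.Arc2
import Pool.Agent.W240.PC.HM1
import Pool.Agent.W52.PCt.HM2
import Pool.Agent.W52.PCt.Poly
import Pool.Agent.W52.PCt.Lim
import Pool.Agent.W52.PCt.Grow
import Pool.Agent.W347.PC.Ins
import Pool.Agent.W347.PC.Step
import Pool.Agent.W376.PCA.AddArc
import Pool.Agent.W397.PC.Add
import Pool.Agent.W397.PC.Main

/-!
# Peano continua are topological IFS-attractors
-/

open Set Topology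

namespace Pool.Agent.W618.PC

/-- Every path contains an arc. -/
theorem arc : S_ARC := by
  intro X _ σ hσ h01
  obtain ⟨m, hm1, hm2, hm3, hm4, hm5, hm6⟩ := Pool.Agent.W366.PC.Arc1.arc1 X σ hσ
  obtain ⟨α, ψ, θ, h1, h2, h3, h4, h5, h6, h7⟩ := Pool.Agent.W366.PC.Arc2.arc2 X
    (fun t => σ (m t)) hm5 (by rw [hm3, hm4]; exact h01) hm6
  refine ⟨α, fun t => m (ψ t), θ, h1, h2, h3, h4.trans hm3, h5.trans hm4,
    fun s t hs hst ht => ?_, fun t ht => ⟨hm2 _ (h7 t ht).1, (h7 t ht).2⟩⟩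
  exact hm1 _ _ (h7 s ⟨hs, hst.trans ht⟩).1.1 (h6 s t hs hst ht) (h7 t ⟨hs.trans hst, ht⟩).1.2

/-- The Hahn-Mazurkiewicz theorem. -/
theorem hahn_mazurkiewicz : S_HM := Pool.Agent.W52.PCt.HM2.hm2 Pool.Agent.W240.PC.hm1

theorem main : S_MAIN :=
  Pool.Agent.W397.PC.main
    (Pool.Agent.W347.PC.step Pool.Agent.W347.PC.ins
      (Pool.Agent.W397.PC.add (Pool.Agent.W376.PCA.addarc arc)))
    Pool.Agent.W52.PCt.Lim.lim

/-- Every nonempty compact, connected, locally connected metrizable space is a topological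
IFS-attractor. -/
theorem attractor (X : Type) [TopologicalSpace X] [CompactSpace X] [ConnectedSpace X]
    [LocallyConnectedSpace X] [TopologicalSpace.MetrizableSpace X] :
    Pool.Agent.H764R3.TopFractal.IsTopologicalIFSAttractor X := by
  letI := TopologicalSpace.metrizableSpaceMetric X
  obtain ⟨q, hq, hqs⟩ := hahn_mazurkiewicz X
  exact attractor_of_parts arc Pool.Agent.W52.PCt.Poly.poly main Pool.Agent.W52.PCt.Grow.grow X q
    hq hqs

end Pool.Agent.W618.PC
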